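import Pool.Agent.N798.H.Stm2
import Pool.Agent.N499.T.PL

set_option autoImplicit false

/-! Project HS: the Plancherel step with arbitrary weights. -/

namespace Pool.Agent.N798.HS

open Finset MeasureTheory Filter FourierTransform
open scoped ENNReal
open Pool.Agent.H376R2.MR (er)
open Pool.Agent.Y957.AD (four_shift memLp_of_bdd er_norm er_zero)
open Pool.Agent.Y957.VK (four_fsum four_smulc ton enorm_sq_le)
open Pool.Agent.N499.T (four_eq H_int)

/-- the comparison kernel -/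
noncomputable def Ek (T : ℝ) (x : ℝ) : ℂ := (Set.Ioi (0:ℝ)).indicator (fun x : ℝ => Complex.exp (-(T : ℂ) * x)) x

lemma Ek_norm (T x : ℝ) : ‖Ek T x‖ = (Set.Ioi (0:ℝ)).indicator (fun x : ℝ => Real.exp (-T * x)) x := by
  unfold Ek
  by_cases hx : x ∈ Set.Ioi (0:ℝ)
  · rw [Set.indicator_of_mem hx, Set.indicator_of_mem hx, Complex.norm_exp]
    simp
  · rw [Set.indicator_of_notMem hx, Set.indicator_of_notMem hx, norm_zero]

lemma Ek_le {T : ℝ} (hT : 1 ≤ T) (x : ℝ) : ‖Ek T x‖ ≤ 1 := by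
  rw [Ek_norm]
  by_cases hx : x ∈ Set.Ioi (0:ℝ)
  · rw [Set.indicator_of_mem hx]
    apply Real.exp_le_one_iff.2
    have : 0 < x := hx
    nlinarith
  · rw [Set.indicator_of_notMem hx]
    exact zero_le_one

lemma Ek_int {T : ℝ} (hT : 1 ≤ T) : Integrable (Ek T) := by
  have h1 : IntegrableOn (fun x : ℝ => Complex.exp (-(T : ℂ) * x)) (Set.Ioi (0:ℝ)) :=
    integrableOn_exp_mul_complex_Ioi (by simp; linarith) 0
  exact (integrable_indicator_iff measurableSet_Ioi).2 h1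

lemma Ek_lint {T : ℝ} (hT : 1 ≤ T) : ∫⁻ x, ‖Ek T x‖ₑ = ENNReal.ofReal (1 / T) := by
  rw [← ofReal_integral_norm_eq_lintegral_enorm (Ek_int hT)]
  congr 1
  simp only [Ek_norm]
  rw [integral_indicator measurableSet_Ioi, integral_exp_mul_Ioi (by linarith) 0]
  simp

lemma Ek_four {T : ℝ} (hT : 1 ≤ T) (ξ : ℝ) : ‖𝓕 (Ek T) ξ‖ ^ 2 = 1 / (T ^ 2 + (2 * Real.pi * ξ) ^ 2) := by
  have h1 : 𝓕 (Ek T) ξ = 1 / ((T : ℂ) + (2 * Real.pi * ξ : ℝ) * Complex.I) := by
    rw [four_eq]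
    have e1 : (fun y => Ek T y * er (-(2 * Real.pi * ξ)) y) =
        (Set.Ioi (0:ℝ)).indicator (fun y : ℝ => Complex.exp (-((T : ℂ) + (2 * Real.pi * ξ : ℝ) * Complex.I) * y)) := by
      funext y
      unfold Ek er
      by_cases hy : y ∈ Set.Ioi (0:ℝ)
      · rw [Set.indicator_of_mem hy, Set.indicator_of_mem hy, ← Complex.exp_add]
        congr 1
        push_cast
        ring
      · rw [Set.indicator_of_notMem hy, Set.indicator_of_notMem hy, zero_mul]
    rw [e1, integral_indicator measurableSet_Ioi, integral_exp_mul_complex_Ioi (by simp; linarith) 0]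
    rw [Complex.ofReal_zero, mul_zero, Complex.exp_zero, neg_div_neg_eq]
  rw [h1, norm_div, norm_one, div_pow, one_pow]
  congr 1
  rw [← Complex.normSq_eq_norm_sq, Complex.normSq_add_mul_I]

lemma pt (s : Finset ℕ) (M T : ℝ) (hs : ∀ n ∈ s, 1 ≤ n ∧ (n : ℝ) ≤ M) (hMT : M ≤ T) (hT : 1 ≤ T) (a : ℝ) :
    ∑ n ∈ s, ‖Ek T (a + Real.log n)‖ ≤ 2 := by
  classical
  simp only [Ek_norm]
  set S := s.filter fun n : ℕ => a + Real.log n ∈ Set.Ioi (0:ℝ) with hS
  have h1 : ∑ n ∈ s, (Set.Ioi (0:ℝ)).indicator (fun x : ℝ => Real.exp (-T * x)) (a + Real.log n) =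
      ∑ n ∈ S, Real.exp (-T * (a + Real.log n)) := by
    rw [hS, Finset.sum_filter]
    refine Finset.sum_congr rfl fun n _ => ?_
    rw [Set.indicator_apply]
  rw [h1]
  rcases S.eq_empty_or_nonempty with h0 | h0
  · rw [h0, Finset.sum_empty]
    norm_num
  · set n0 := S.min' h0 with hn0
    have hn0S : n0 ∈ S := S.min'_mem h0
    have hn0s := (Finset.mem_filter.1 hn0S)
    have hpos0 : (0:ℝ) < n0 := by exact_mod_cast (hs n0 hn0s.1).1
    have h2 : ∀ n ∈ S, Real.exp (-T * (a + Real.log n)) ≤ (1 / 2 : ℝ) ^ (n - n0) := by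
      intro n hn
      have hns := (Finset.mem_filter.1 hn)
      have hle : n0 ≤ n := S.min'_le n hn
      have hnpos : (0:ℝ) < n := by exact_mod_cast (hs n hns.1).1
      have hnM := (hs n hns.1).2
      have h3 : (0:ℝ) < a + Real.log n0 := hn0s.2
      have h4 : Real.log (n0 / n) ≤ n0 / n - 1 := Real.log_le_sub_one_of_pos (by positivity)
      rw [Real.log_div hpos0.ne' hnpos.ne'] at h4
      have h5 : (n - n0 : ℝ) / n ≤ a + Real.log n := by
        have : (n - n0 : ℝ) / n = 1 - n0 / n := by field_simp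
        rw [this]
        linarith
      have h6 : ((n - n0 : ℕ) : ℝ) ≤ T * (a + Real.log n) := by
        rw [Nat.cast_sub hle]
        have h7 : (0:ℝ) ≤ n - n0 := by
          have : (n0 : ℝ) ≤ n := by exact_mod_cast hle
          linarith
        calc (n - n0 : ℝ) = n * ((n - n0 : ℝ) / n) := by field_simp
          _ ≤ T * ((n - n0 : ℝ) / n) := mul_le_mul_of_nonneg_right (by linarith) (by positivity)
          _ ≤ _ := mul_le_mul_of_nonneg_left h5 (by linarith)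
      have h8 : (1 / 2 : ℝ) ^ (n - n0) = Real.exp (-(Real.log 2) * ((n - n0 : ℕ) : ℝ)) := by
        rw [mul_comm, ← Real.log_inv, Real.exp_nat_mul, Real.exp_log (by norm_num), one_div]
      rw [h8]
      apply Real.exp_le_exp.2
      have hl2 : Real.log 2 ≤ 1 := by
        have := Real.log_two_lt_d9
        linarith
      have h9 : (0:ℝ) ≤ ((n - n0 : ℕ) : ℝ) := Nat.cast_nonneg _
      nlinarith
    refine (Finset.sum_le_sum h2).trans ?_
    have h10 : ∑ n ∈ S, (1 / 2 : ℝ) ^ (n - n0) = ∑ i ∈ S.image (fun n => n - n0), (1 / 2 : ℝ) ^ i := by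
      rw [Finset.sum_image]
      intro x hx y hy hxy
      have hx' := S.min'_le x hx
      have hy' := S.min'_le y hy
      simp only at hxy
      omega
    rw [h10]
    obtain ⟨m, hm⟩ : ∃ m, S.image (fun n => n - n0) ⊆ range m := Finset.exists_nat_subset_range _
    refine (Finset.sum_le_sum_of_subset_of_nonneg hm fun i _ _ => by positivity).trans ?_
    exact sum_geometric_two_le m

theorem pl2 : S_PL2 := by
  intro s M hs g hg H hHm hH Y R hR hHs V hV hVη T κ hT hMT hκ hκη s0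
  have hHi : Integrable H := H_int hHm hH hHs
  have hEi : Integrable (Ek T) := Ek_int hT
  have hpi := Real.pi_pos
  have hT0 : 0 < T := by linarith
  have habs : ∀ ξ : ℝ, |2 * Real.pi * ξ| = 2 * Real.pi * |ξ| := by
    intro ξ
    rw [abs_mul, abs_of_pos (show (0 : ℝ) < 2 * Real.pi by positivity)]
  -- the two sums and their transforms
  have key : ∀ (F : ℝ → ℂ) (_ : Integrable F) (B : ℝ) (_ : ∀ y, ‖F y‖ ≤ B),
      ∫⁻ u, ‖∑ n ∈ s, g n * F (u + (s0 + Real.log n))‖ₑ ^ 2 =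
        ∫⁻ ξ, ‖∑ n ∈ s, g n * er (2 * Real.pi * ξ) (s0 + Real.log n)‖ₑ ^ 2 * ‖𝓕 F ξ‖ₑ ^ 2 := by
    intro F hF B hB
    have hFi : Integrable (fun u => ∑ n ∈ s, g n * F (u + (s0 + Real.log n))) :=
      integrable_finsetSum _ fun n _ => (hF.comp_add_right _).const_mul _
    have hFb : ∀ u, ‖∑ n ∈ s, g n * F (u + (s0 + Real.log n))‖ ≤ B * s.card := by
      intro u
      refine (norm_sum_le _ _).trans ?_
      calc ∑ n ∈ s, ‖g n * F (u + (s0 + Real.log n))‖ ≤ ∑ n ∈ s, B := by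
            refine Finset.sum_le_sum fun n _ => ?_
            rw [norm_mul]
            calc _ ≤ 1 * B := mul_le_mul (hg n) (hB _) (norm_nonneg _) zero_le_one
              _ = B := one_mul _
        _ = B * s.card := by rw [Finset.sum_const, nsmul_eq_mul, mul_comm]
    rw [← Pool.Agent.TH794.QD.plancherel _ hFi (memLp_of_bdd hFi hFb)]
    refine lintegral_congr fun ξ => ?_
    have h2 : 𝓕 (fun u => ∑ n ∈ s, g n * F (u + (s0 + Real.log n))) ξ =
        (∑ n ∈ s, g n * er (2 * Real.pi * ξ) (s0 + Real.log n)) * 𝓕 F ξ := by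
      rw [four_fsum _ _ fun n _ => (hF.comp_add_right _).const_mul _, Finset.sum_mul]
      refine Finset.sum_congr rfl fun n _ => ?_
      rw [four_smulc, four_shift]
      ring
    rw [h2, enorm_mul, mul_pow]
  set Q : ℝ := 2 * (κ ^ 2 * T ^ 2 + V ^ 2) with hQ
  have hQ0 : 0 ≤ Q := by positivity
  have hcmp : ∀ ξ : ℝ, ‖𝓕 H ξ‖ₑ ^ 2 ≤ ENNReal.ofReal Q * ‖𝓕 (Ek T) ξ‖ₑ ^ 2 := by
    intro ξ
    have h1 : ‖𝓕 H ξ‖ ^ 2 ≤ Q * ‖𝓕 (Ek T) ξ‖ ^ 2 := by
      rw [Ek_four hT, four_eq, mul_one_div, le_div_iff₀ (by positivity)]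
      set η := 2 * Real.pi * ξ with hη
      rcases le_or_gt |η| T with h | h
      · have h2 := hκη η h
        have h3 : η ^ 2 ≤ T ^ 2 := by
          rw [← sq_abs η]
          exact pow_le_pow_left₀ (abs_nonneg _) h 2
        have h4 : ‖∫ y, H y * er (-η) y‖ ^ 2 ≤ κ ^ 2 := pow_le_pow_left₀ (norm_nonneg _) h2 2
        calc _ ≤ κ ^ 2 * (T ^ 2 + T ^ 2) := mul_le_mul h4 (by linarith) (by positivity) (by positivity)
          _ ≤ Q := by rw [hQ]; nlinarith [sq_nonneg V]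
      · have hη0 : 0 < |η| := hT0.trans h
        have h2 := hVη η hη0
        have h3 : T ^ 2 ≤ η ^ 2 := by
          rw [← sq_abs η]
          exact pow_le_pow_left₀ hT0.le h.le 2
        have h4 : ‖∫ y, H y * er (-η) y‖ ^ 2 ≤ V ^ 2 / η ^ 2 := by
          rw [← sq_abs η, ← div_pow]
          exact pow_le_pow_left₀ (norm_nonneg _) h2 2
        have hη2 : 0 < η ^ 2 := by rw [← sq_abs η]; positivity
        calc _ ≤ V ^ 2 / η ^ 2 * (η ^ 2 + η ^ 2) := mul_le_mul h4 (by linarith) (by positivity) (by positivity)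
          _ = 2 * V ^ 2 := by rw [div_mul_eq_mul_div, div_eq_iff hη2.ne']; ring
          _ ≤ Q := by rw [hQ]; nlinarith [sq_nonneg (κ * T)]
    have e1 : ∀ z : ℂ, ‖z‖ₑ ^ 2 = ENNReal.ofReal (‖z‖ ^ 2) := fun z => by
      rw [← ofReal_norm, ENNReal.ofReal_pow (norm_nonneg _)]
    rw [e1, e1, ← ENNReal.ofReal_mul hQ0]
    exact ENNReal.ofReal_le_ofReal h1
  have hE2 : ∫⁻ u, ‖∑ n ∈ s, g n * Ek T (u + (s0 + Real.log n))‖ₑ ^ 2 ≤ ENNReal.ofReal (2 * (s.card * (1 / T))) := by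
    have hpt : ∀ u, ‖∑ n ∈ s, g n * Ek T (u + (s0 + Real.log n))‖ₑ ^ 2 ≤
        2 * ∑ n ∈ s, ‖Ek T (u + (s0 + Real.log n))‖ₑ := by
      intro u
      have h1 : ‖∑ n ∈ s, g n * Ek T (u + (s0 + Real.log n))‖ ≤ ∑ n ∈ s, ‖Ek T (u + (s0 + Real.log n))‖ := by
        refine (norm_sum_le _ _).trans (Finset.sum_le_sum fun n _ => ?_)
        rw [norm_mul]
        exact mul_le_of_le_one_left (norm_nonneg _) (hg n)
      have h2 : ∑ n ∈ s, ‖Ek T (u + (s0 + Real.log n))‖ ≤ 2 := by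
        have := pt s M T hs hMT hT (u + s0)
        simpa only [add_assoc] using this
      have h3 : ‖∑ n ∈ s, g n * Ek T (u + (s0 + Real.log n))‖ ^ 2 ≤
          2 * ∑ n ∈ s, ‖Ek T (u + (s0 + Real.log n))‖ := by
        rw [pow_two]
        exact mul_le_mul (h1.trans h2) h1 (norm_nonneg _) (by norm_num)
      have h4 : (∑ n ∈ s, ‖Ek T (u + (s0 + Real.log n))‖ₑ) = ENNReal.ofReal (∑ n ∈ s, ‖Ek T (u + (s0 + Real.log n))‖) := by
        rw [ENNReal.ofReal_sum_of_nonneg fun _ _ => norm_nonneg _]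
        exact Finset.sum_congr rfl fun n _ => (ofReal_norm _).symm
      rw [← ofReal_norm, ← ENNReal.ofReal_pow (norm_nonneg _), h4,
        show (2 : ℝ≥0∞) = ENNReal.ofReal 2 by norm_num, ← ENNReal.ofReal_mul (by norm_num)]
      exact ENNReal.ofReal_le_ofReal h3
    refine (lintegral_mono hpt).trans ?_
    have hm : Measurable (fun u => ‖Ek T u‖ₑ) := by
      have : Measurable (Ek T) := by
        unfold Ek
        exact (by fun_prop : Measurable fun x : ℝ => Complex.exp (-(T : ℂ) * x)).indicator measurableSet_Ioi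
      exact this.enorm
    have hmn : ∀ n ∈ s, Measurable fun u => ‖Ek T (u + (s0 + Real.log n))‖ₑ := fun n _ =>
      hm.comp (measurable_add_const _)
    rw [lintegral_const_mul' _ _ (by norm_num : (2 : ℝ≥0∞) ≠ ⊤), lintegral_finsetSum _ hmn]
    have h5 : ∀ n ∈ s, ∫⁻ u, ‖Ek T (u + (s0 + Real.log n))‖ₑ = ENNReal.ofReal (1 / T) := by
      intro n _
      rw [lintegral_add_right_eq_self (fun u => ‖Ek T u‖ₑ), Ek_lint hT]
    rw [Finset.sum_congr rfl h5, Finset.sum_const, nsmul_eq_mul, show (2 : ℝ≥0∞) = ENNReal.ofReal 2 by norm_num,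
      ENNReal.ofReal_mul (by norm_num), ENNReal.ofReal_mul (Nat.cast_nonneg _), ENNReal.ofReal_natCast]
  rw [key H hHi 2 hH]
  calc ∫⁻ ξ, ‖∑ n ∈ s, g n * er (2 * Real.pi * ξ) (s0 + Real.log n)‖ₑ ^ 2 * ‖𝓕 H ξ‖ₑ ^ 2
      ≤ ∫⁻ ξ, ENNReal.ofReal Q * (‖∑ n ∈ s, g n * er (2 * Real.pi * ξ) (s0 + Real.log n)‖ₑ ^ 2 *
          ‖𝓕 (Ek T) ξ‖ₑ ^ 2) := by
        refine lintegral_mono fun ξ => ?_
        refine (mul_le_mul' le_rfl (hcmp ξ)).trans (le_of_eq ?_)
        ring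
    _ = ENNReal.ofReal Q * ∫⁻ u, ‖∑ n ∈ s, g n * Ek T (u + (s0 + Real.log n))‖ₑ ^ 2 := by
        rw [lintegral_const_mul' _ _ ENNReal.ofReal_ne_top, key (Ek T) hEi 1 (Ek_le hT)]
    _ ≤ ENNReal.ofReal Q * ENNReal.ofReal (2 * (s.card * (1 / T))) := mul_le_mul' le_rfl hE2
    _ ≤ _ := by
        rw [← ENNReal.ofReal_mul hQ0]
        apply ENNReal.ofReal_le_ofReal
        apply le_of_eq
        rw [hQ]
        field_simp
        ring

end Pool.Agent.N798.HS
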