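import Pool.Agent.N798.H.Fin2
import Pool.Agent.N798.H.PL2
import Pool.Agent.N887.HS.FB
import Pool.Agent.N164.HS.SC
import Pool.Agent.N286.HS.SD
import Pool.Agent.N999.HS.PRD
import Pool.Agent.N280.HS.EX
import Pool.Agent.N531.HS.MT
import Pool.Agent.N75.HS.NP
import Pool.Agent.N216.T.FT
import Pool.Agent.N539.T.F0
import Pool.Agent.N539.T.FD
import Pool.Agent.N798.S2.All

set_option autoImplicit false

/-! Project HS: putting the parts together. -/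

namespace Pool.Agent.N798.HS

open Finset MeasureTheory Filter Topology

theorem scP : S_SC :=
  Pool.Agent.N164.HS.sc pl2 (Pool.Agent.N887.HS.fb Pool.Agent.N216.T.FT.ft Pool.Agent.N539.T.f0) Pool.Agent.N539.T.fd
    Pool.Agent.N798.S2.wtP

theorem sdP : S_SD := Pool.Agent.N286.HS.sd scP

theorem finP {k : ℕ} (u : Fin k → ℕ → ℕ) (hu : ∀ i, Sq (u i)) (σ : Fin k → Bool) :
    ∀ᵐ α : Fin k → ℝ, (∀ i, 0 < α i) → ∀ b : Fin k → ℤ,
      (∀ L : ℕ, Thin fun n => (n : ℝ) / (Real.log n) ^ L < |(reps u σ b α n : ℝ) - mainT u σ α n|) ∧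
      ∀ ε : ℝ, 0 < ε → Thin fun n => ε < |(reps u σ b α n : ℝ) / (n / (Real.log n) ^ k) - 1| :=
  fin sdP Pool.Agent.N999.HS.prd Pool.Agent.N280.HS.ex Pool.Agent.N531.HS.mt u hu σ

theorem leftP {k : ℕ} (u : Fin k → ℕ → ℕ) (hu : ∀ i, Sq (u i)) :
    ∀ᵐ α : Fin k → ℝ, (∀ i, 0 < α i) → ∀ b : Fin k → ℤ,
      Tendsto (fun n : ℕ => (reps u (fun _ => false) b α n : ℝ) / (n / (Real.log n) ^ k)) atTop (𝓝 1) :=
  fin_left sdP Pool.Agent.N999.HS.prd Pool.Agent.N280.HS.ex Pool.Agent.N531.HS.mt u hu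

end Pool.Agent.N798.HS
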