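import Pool.Agent.N798.H.Stm2
import Pool.Agent.N798.T.Bas
import Pool.Agent.N262.T.CU

set_option autoImplicit false

/-! Project HS: final assembly. -/

namespace Pool.Agent.N798.HS

open Finset MeasureTheory Filter Topology
open scoped ENNReal
open Pool.Agent.N798.T

lemma mu_ae (k : ℕ) : ∀ᵐ ω ∂(mu k), ∀ i, ω i ∈ Set.Icc (0:ℝ) 1 := by
  rw [ae_all_iff]
  intro i
  unfold mu
  exact (measurePreserving_eval (fun _ : Fin k => (volume : Measure ℝ).restrict (Set.Icc (0 : ℝ) 1))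
    i).quasiMeasurePreserving.ae (ae_restrict_mem measurableSet_Icc)

lemma Fp_meas (b : ℤ) (s : ℝ) (m : ℕ) : Measurable fun x => Fp b s x m := by
  unfold Fp
  have h1 : Measurable fun q : ℕ => (if q.Prime then (1:ℂ) else 0) := measurable_of_countable _
  exact h1.comp ((vl_meas b).comp (by fun_prop))

lemma Mp_meas (s : ℝ) (m : ℕ) : Measurable fun x => Mp s x m := by
  unfold Mp
  exact Complex.measurable_ofReal.comp (by fun_prop)

lemma Fp_le (b : ℤ) (s x : ℝ) (m : ℕ) : ‖Fp b s x m‖ ≤ 1 := by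
  unfold Fp
  split_ifs <;> simp

lemma Sq_le {u : ℕ → ℕ} (hu : Sq u) : ∀ m, 1 ≤ m → m ≤ u m := by
  intro m hm
  induction m, hm using Nat.le_induction with
  | base => exact hu.2.1
  | succ n hn ih => exact Nat.succ_le_of_lt (lt_of_le_of_lt ih (hu.1 n (n + 1) hn (Nat.lt_succ_self n)))

lemma T_mem {n j : ℕ} : j ∈ T n ↔ j < n ∧ Nat.sqrt n < j ∧ Nat.sqrt n < n - j := by
  unfold T
  rw [mem_filter, mem_range]

lemma T_refl (n : ℕ) (f : ℕ → ℂ) : ∑ j ∈ T n, f (n - j) = ∑ j ∈ T n, f j := by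
  refine Finset.sum_nbij' (fun j => n - j) (fun j => n - j) ?_ ?_ ?_ ?_ ?_
  · intro j hj
    rw [T_mem] at hj ⊢
    omega
  · intro j hj
    rw [T_mem] at hj ⊢
    omega
  · intro j hj
    rw [T_mem] at hj
    omega
  · intro j hj
    rw [T_mem] at hj
    omega
  · intro j _
    rfl

lemma arg_gt {n j : ℕ} (σ : Bool) (hj : j ∈ T n) : Nat.sqrt n < arg σ n j := by
  rw [T_mem] at hj
  unfold arg
  split_ifs
  · exact hj.2.2
  · exact hj.2.1

lemma one (h : S_SD) (u : ℕ → ℕ) (hu : Sq u) (σ : Bool) (b : ℤ) (s : ℝ) (K : ℕ) :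
    ∃ (D : ℝ) (N0 : ℕ), 0 ≤ D ∧ 2 ≤ N0 ∧ ∀ n : ℕ, N0 ≤ n → ∀ w : ℕ → ℂ, (∀ m, ‖w m‖ ≤ 1) →
      ∫⁻ x in Set.Icc (0 : ℝ) 1, ‖∑ j ∈ T n, w j * (Fp b s x (u (arg σ n j)) - Mp s x (u (arg σ n j)))‖ₑ ^ 2 ≤
        ENNReal.ofReal (D * n ^ 2 / (Real.log n) ^ K) := by
  classical
  obtain ⟨D, N0, hD, hN0, h1⟩ := h u hu b s K
  refine ⟨D, N0, hD, hN0, fun n hn w hw => ?_⟩
  have hsub : T n ⊆ Ioc (Nat.sqrt n) n := by
    intro j hj
    rw [T_mem] at hj
    rw [mem_Ioc]
    omega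
  have key : ∀ v : ℕ → ℂ, (∀ m, ‖v m‖ ≤ 1) →
      ∫⁻ x in Set.Icc (0 : ℝ) 1, ‖∑ j ∈ T n, v j * (Fp b s x (u j) - Mp s x (u j))‖ₑ ^ 2 ≤
        ENNReal.ofReal (D * n ^ 2 / (Real.log n) ^ K) := by
    intro v hv
    refine le_trans (le_of_eq ?_) (h1 n hn (fun j => if j ∈ T n then v j else 0) fun m => ?_)
    · refine lintegral_congr fun x => ?_
      congr 2
      rw [← Finset.sum_subset hsub]
      · refine Finset.sum_congr rfl fun j hj => ?_
        simp only [if_pos hj]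
      · intro j _ hj
        simp only [if_neg hj, zero_mul]
    · split_ifs
      · exact hv m
      · rw [norm_zero]; exact zero_le_one
  cases σ with
  | false =>
    simpa [arg] using key w hw
  | true =>
    have h2 := key (fun l => w (n - l)) fun m => hw _
    refine le_trans (le_of_eq ?_) h2
    refine lintegral_congr fun x => ?_
    congr 2
    rw [← T_refl]
    refine Finset.sum_congr rfl fun j hj => ?_
    rw [T_mem] at hj
    have e1 : n - (n - j) = j := by omega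
    simp only [arg, if_true, e1]

/-- the deviation, in the coordinates of the cube -/
noncomputable def Gw {k : ℕ} (u : Fin k → ℕ → ℕ) (σ : Fin k → Bool) (b : Fin k → ℤ) (s : ℕ → ℝ) (ω : Fin k → ℝ)
    (n : ℕ) : ℂ :=
  ∑ j ∈ T n, (∏ i, Fp (b i) (s i) (ω i) (u i (arg (σ i) n j)) - ∏ i : Fin k, Mp (s i) (ω i) (u i (arg (σ i) n j)))

lemma Gw_meas {k : ℕ} (u : Fin k → ℕ → ℕ) (σ : Fin k → Bool) (b : Fin k → ℤ) (s : ℕ → ℝ) (n : ℕ) :
    Measurable fun ω => Gw u σ b s ω n := by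
  unfold Gw
  refine Finset.measurable_fun_sum _ fun j _ => Measurable.sub ?_ ?_
  · exact Finset.measurable_fun_prod _ fun i _ => (Fp_meas _ _ _).comp (measurable_pi_apply i)
  · exact Finset.measurable_fun_prod _ fun i _ => (Mp_meas _ _).comp (measurable_pi_apply i)

lemma Mp_le {u : ℕ → ℕ} (hu : Sq u) (s : ℝ) : ∃ n1 : ℕ, ∀ n, n1 ≤ n → ∀ m, Nat.sqrt n < m → ∀ x ∈ Set.Icc (0:ℝ) 1,
    ‖Mp s x (u m)‖ ≤ 1 := by
  refine ⟨(⌈Real.exp (1 - s)⌉₊) ^ 2, fun n hn m hm x hx => ?_⟩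
  have h1 : ⌈Real.exp (1 - s)⌉₊ ≤ Nat.sqrt n := Nat.le_sqrt'.2 hn
  have h2 : Real.exp (1 - s) ≤ m := (Nat.le_ceil _).trans (by exact_mod_cast h1.trans hm.le)
  have h3 : (m : ℝ) ≤ u m := by exact_mod_cast Sq_le hu m (by omega)
  have h4 : Real.exp 1 ≤ Real.exp (s + x) * u m := by
    calc Real.exp 1 = Real.exp s * Real.exp (1 - s) := by rw [← Real.exp_add]; congr 1; ring
      _ ≤ Real.exp (s + x) * u m := mul_le_mul (Real.exp_le_exp.2 (by linarith [hx.1])) (h2.trans h3)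
          (Real.exp_pos _).le (Real.exp_pos _).le
  have h5 : 1 ≤ Real.log (Real.exp (s + x) * u m) := by
    rw [Real.le_log_iff_exp_le (lt_of_lt_of_le (Real.exp_pos _) h4)]
    exact h4
  unfold Mp
  rw [Complex.norm_real, Real.norm_eq_abs, abs_of_nonneg (by positivity)]
  rw [div_le_one (by linarith)]
  exact h5

lemma meanSq (hsd : S_SD) (hprd : S_PRD) {k : ℕ} (u : Fin k → ℕ → ℕ) (hu : ∀ i, Sq (u i)) (σ : Fin k → Bool)
    (b : Fin k → ℤ) (s : ℕ → ℝ) : ∀ K : ℕ, ∃ (D : ℝ) (N0 : ℕ), 0 ≤ D ∧ 2 ≤ N0 ∧ ∀ n : ℕ, N0 ≤ n →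
      ∫⁻ ω, ‖Gw u σ b s ω n‖ₑ ^ 2 ∂(mu k) ≤ ENNReal.ofReal (D * n ^ 2 / (Real.log n) ^ K) := by
  intro K
  choose D N0 hD hN0 h1 using fun i : Fin k => one hsd (u i) (hu i) (σ i) (b i) (s i) K
  choose n1 hn1 using fun i : Fin k => Mp_le (hu i) (s i)
  have hDt : 0 ≤ ∑ i, D i := Finset.sum_nonneg fun i _ => hD i
  refine ⟨(k : ℝ) ^ 2 * ∑ i, D i, 2 + ∑ i, (N0 i + n1 i), by positivity, by omega, fun n hn => ?_⟩
  have hNi : ∀ i, N0 i + n1 i ≤ n := fun i =>
    (Finset.single_le_sum (f := fun i => N0 i + n1 i) (fun _ _ => Nat.zero_le _) (Finset.mem_univ i)).trans (by omega)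
  have hn2 : 2 ≤ n := by omega
  have hlog : 0 ≤ Real.log n := Real.log_nonneg (by exact_mod_cast (by omega : 1 ≤ n))
  have h2 := hprd k (T n) (fun i x j => Fp (b i) (s i) x (u i (arg (σ i) n j)))
    (fun i x j => Mp (s i) x (u i (arg (σ i) n j))) (fun i j => Fp_meas _ _ _) (fun i j => Mp_meas _ _)
    (fun i x _ j _ => Fp_le _ _ _ _) (fun i x hx j hj => hn1 i n ((Nat.le_add_left _ _).trans (hNi i)) _
      (arg_gt _ hj) x hx) (ENNReal.ofReal ((∑ i, D i) * n ^ 2 / (Real.log n) ^ K)) (by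
    intro i w hw
    refine (h1 i n ((Nat.le_add_right _ _).trans (hNi i)) w hw).trans (ENNReal.ofReal_le_ofReal ?_)
    refine div_le_div_of_nonneg_right (mul_le_mul_of_nonneg_right ?_ (by positivity)) (by positivity)
    exact Finset.single_le_sum (fun i _ => hD i) (Finset.mem_univ i))
  refine h2.trans (le_of_eq ?_)
  rw [show ((k : ℝ≥0∞)) ^ 2 = ENNReal.ofReal ((k : ℝ) ^ 2) by
    rw [ENNReal.ofReal_pow (Nat.cast_nonneg _), ENNReal.ofReal_natCast], ← ENNReal.ofReal_mul (by positivity)]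
  congr 1
  ring

/-- the number of `0 < j < n` for which all `⌊α_i u_i(j)⌋ + b_i`, with `n - j` for `j` on the right side, are
primes -/
noncomputable def reps {k : ℕ} (u : Fin k → ℕ → ℕ) (σ : Fin k → Bool) (b : Fin k → ℤ) (α : Fin k → ℝ) (n : ℕ) : ℕ :=
  #((Ioo 0 n).filter fun j : ℕ => ∀ i, (⌊α i * (u i (arg (σ i) n j) : ℝ)⌋ + b i).toNat.Prime)

/-- the main term -/
noncomputable def mainT {k : ℕ} (u : Fin k → ℕ → ℕ) (σ : Fin k → Bool) (α : Fin k → ℝ) (n : ℕ) : ℝ :=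
  ∑ j ∈ T n, ∏ i, 1 / Real.log (α i * u i (arg (σ i) n j))

open Classical in
/-- the set `E` has at most `o (N / (log N)^K)` elements up to `N`, for every `K` -/
def Thin (E : ℕ → Prop) : Prop := ∀ K : ℕ,
  Tendsto (fun N : ℕ => (#((Icc 1 N).filter E) : ℝ) * (Real.log N) ^ K / N) atTop (𝓝 0)

lemma thin_mono {E E' : ℕ → Prop} (h : ∀ᶠ n in atTop, E n → E' n) (hE : Thin E') : Thin E := by
  classical
  intro K
  obtain ⟨n0, hn0⟩ := eventually_atTop.1 h
  have h1 : Tendsto (fun N : ℕ => (n0 : ℝ) * ((Real.log N) ^ K / N)) atTop (𝓝 0) := by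
    have : Tendsto (fun N : ℕ => (Real.log (N:ℝ)) ^ K / (N:ℝ)) atTop (𝓝 0) := by
      have h2 : Tendsto (fun x : ℝ => (Real.log x) ^ K / x) atTop (𝓝 0) := by
        have := (Real.isLittleO_pow_log_id_atTop (n := K)).tendsto_div_nhds_zero
        simpa using this
      exact h2.comp tendsto_natCast_atTop_atTop
    simpa using this.const_mul (n0 : ℝ)
  have h2 := h1.add (hE K)
  rw [add_zero] at h2
  refine squeeze_zero' ?_ ?_ h2
  · filter_upwards [eventually_ge_atTop 1] with N hN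
    have : 0 ≤ Real.log (N:ℝ) := Real.log_nonneg (by exact_mod_cast hN)
    positivity
  · filter_upwards [eventually_ge_atTop 1] with N hN
    have hl : 0 ≤ Real.log (N:ℝ) := Real.log_nonneg (by exact_mod_cast hN)
    have h3 : #((Icc 1 N).filter E) ≤ n0 + #((Icc 1 N).filter E') := by
      calc #((Icc 1 N).filter E) ≤ #(range n0 ∪ (Icc 1 N).filter E') := by
            apply Finset.card_le_card
            intro n hn
            rw [mem_filter] at hn
            rw [mem_union, mem_range, mem_filter]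
            by_cases h4 : n < n0
            · exact Or.inl h4
            · exact Or.inr ⟨hn.1, hn0 n (by omega) hn.2⟩
        _ ≤ _ := (Finset.card_union_le _ _).trans (by rw [card_range])
    have h4 : (#((Icc 1 N).filter E) : ℝ) ≤ n0 + #((Icc 1 N).filter E') := by exact_mod_cast h3
    have h5 : 0 ≤ (Real.log (N:ℝ)) ^ K / N := by positivity
    calc (#((Icc 1 N).filter E) : ℝ) * (Real.log N) ^ K / N = #((Icc 1 N).filter E) * ((Real.log N) ^ K / N) := by ring
      _ ≤ (n0 + #((Icc 1 N).filter E')) * ((Real.log N) ^ K / N) := mul_le_mul_of_nonneg_right h4 h5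
      _ = _ := by ring

/-- the deviation in terms of `α` -/
noncomputable def Ga {k : ℕ} (u : Fin k → ℕ → ℕ) (σ : Fin k → Bool) (b : Fin k → ℤ) (α : Fin k → ℝ) (n : ℕ) : ℂ :=
  ∑ j ∈ T n, ((∏ i, if (⌊α i * (u i (arg (σ i) n j) : ℝ)⌋ + b i).toNat.Prime then (1 : ℂ) else 0) -
    ∏ i, ((1 / Real.log (α i * u i (arg (σ i) n j)) : ℝ) : ℂ))

lemma ae_Ga (hsd : S_SD) (hprd : S_PRD) (hex : S_EX) {k : ℕ} (u : Fin k → ℕ → ℕ) (hu : ∀ i, Sq (u i))
    (σ : Fin k → Bool) (b : Fin k → ℤ) :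
    ∀ᵐ α ∂((volume : Measure (Fin k → ℝ)).restrict {α | ∀ i, 0 < α i}), ∀ L : ℕ,
      Thin fun n => (n : ℝ) / (Real.log n) ^ L < ‖Ga u σ b α n‖ := by
  classical
  refine Pool.Agent.N262.T.cu k _ fun s => ?_
  have h1 := hex (Fin k → ℝ) (mu k) (fun ω n => Gw u σ b s ω n) (Gw_meas u σ b s)
    (meanSq hsd hprd u hu σ b s)
  filter_upwards [h1, mu_ae k] with ω hω hω1 L K
  have h2 := hω L K
  have e1 : ∀ i : Fin k, al s k ω i = Real.exp (s i + ω i) := by
    intro i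
    unfold al
    rw [dif_pos i.2, clamp_id (hω1 i)]
  have e2 : ∀ n, Ga u σ b (fun j : Fin k => al s k ω j) n = Gw u σ b s ω n := by
    intro n
    unfold Ga Gw Fp Mp vl
    simp only [e1]
  simp only [e2]
  exact h2

lemma reps_diff {k : ℕ} (u : Fin k → ℕ → ℕ) (σ : Fin k → Bool) (b : Fin k → ℤ) (α : Fin k → ℝ) (n : ℕ) :
    |(reps u σ b α n : ℝ) - mainT u σ α n| ≤ ‖Ga u σ b α n‖ + 2 * Nat.sqrt n := by
  classical
  have e1 : Ga u σ b α n = ((#((T n).filter fun j : ℕ =>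
      ∀ i, (⌊α i * (u i (arg (σ i) n j) : ℝ)⌋ + b i).toNat.Prime) - mainT u σ α n : ℝ) : ℂ) := by
    unfold Ga mainT
    rw [Finset.sum_sub_distrib, ← Finset.sum_boole]
    push_cast
    congr 1
    refine Finset.sum_congr rfl fun j _ => ?_
    by_cases h : ∀ i, (⌊α i * (u i (arg (σ i) n j) : ℝ)⌋ + b i).toNat.Prime
    · rw [if_pos h, Finset.prod_eq_one fun i _ => if_pos (h i)]
      simp
    · rw [if_neg h]
      push Not at h
      obtain ⟨i, hi⟩ := h
      exact Finset.prod_eq_zero (Finset.mem_univ i) (if_neg hi)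
  rw [e1, Complex.norm_real, Real.norm_eq_abs]
  set A := (T n).filter fun j : ℕ => ∀ i, (⌊α i * (u i (arg (σ i) n j) : ℝ)⌋ + b i).toNat.Prime with hA
  set B := (Ioo 0 n).filter fun j : ℕ => ∀ i, (⌊α i * (u i (arg (σ i) n j) : ℝ)⌋ + b i).toNat.Prime with hB
  have hAB : A ⊆ B := by
    intro j hj
    rw [hA, mem_filter, T_mem] at hj
    rw [hB, mem_filter, mem_Ioo]
    exact ⟨by omega, hj.2⟩
  have h1 : #B ≤ #A + 2 * Nat.sqrt n := by
    have h2 : B ⊆ A ∪ (Icc 1 (Nat.sqrt n) ∪ (Icc 1 (Nat.sqrt n)).image fun j => n - j) := by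
      intro j hj
      rw [hB, mem_filter, mem_Ioo] at hj
      by_cases h3 : j ∈ T n
      · exact mem_union_left _ (mem_filter.2 ⟨h3, hj.2⟩)
      · refine mem_union_right _ ?_
        rw [T_mem] at h3
        by_cases h4 : j ≤ Nat.sqrt n
        · exact mem_union_left _ (mem_Icc.2 ⟨hj.1.1, h4⟩)
        · refine mem_union_right _ (mem_image.2 ⟨n - j, mem_Icc.2 ⟨by omega, ?_⟩, by omega⟩)
          by_contra h5
          exact h3 ⟨hj.1.2, by omega, by omega⟩
    refine (Finset.card_le_card h2).trans ((Finset.card_union_le _ _).trans ?_)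
    have h3 := Finset.card_union_le (Icc 1 (Nat.sqrt n)) ((Icc 1 (Nat.sqrt n)).image fun j => n - j)
    have h4 : #((Icc 1 (Nat.sqrt n)).image fun j => n - j) ≤ #(Icc 1 (Nat.sqrt n)) := Finset.card_image_le
    rw [Nat.card_Icc] at h3 h4
    omega
  have h2 : (#A : ℝ) ≤ #B := by exact_mod_cast Finset.card_le_card hAB
  have h3 : (#B : ℝ) ≤ #A + 2 * Nat.sqrt n := by exact_mod_cast h1
  have h4 : (reps u σ b α n : ℝ) = #B := rfl
  rw [h4]
  have e2 : (#B : ℝ) - mainT u σ α n = (#A - mainT u σ α n) + (#B - #A) := by ring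
  rw [e2]
  refine (abs_add_le _ _).trans (add_le_add le_rfl ?_)
  rw [abs_of_nonneg (by linarith)]
  linarith

/-- **The theorem.** -/
theorem fin (hsd : S_SD) (hprd : S_PRD) (hex : S_EX) (hmt : S_MT) {k : ℕ} (u : Fin k → ℕ → ℕ) (hu : ∀ i, Sq (u i))
    (σ : Fin k → Bool) :
    ∀ᵐ α : Fin k → ℝ, (∀ i, 0 < α i) → ∀ b : Fin k → ℤ,
      (∀ L : ℕ, Thin fun n => (n : ℝ) / (Real.log n) ^ L < |(reps u σ b α n : ℝ) - mainT u σ α n|) ∧
      ∀ ε : ℝ, 0 < ε → Thin fun n => ε < |(reps u σ b α n : ℝ) / (n / (Real.log n) ^ k) - 1| := by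
  have hm : MeasurableSet {α : Fin k → ℝ | ∀ i, 0 < α i} := by
    rw [Set.ofPred_forall]
    exact MeasurableSet.iInter fun i => measurableSet_lt measurable_const (measurable_pi_apply i)
  have h1 := ae_all_iff.2 fun b : Fin k → ℤ => ae_Ga hsd hprd hex u hu σ b
  rw [ae_restrict_iff' hm] at h1
  filter_upwards [h1] with α hα hpos b
  have h2 := hα hpos b
  have hlog : Tendsto (fun n : ℕ => Real.log (n : ℝ)) atTop atTop :=
    Real.tendsto_log_atTop.comp tendsto_natCast_atTop_atTop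
  have hA : ∀ L : ℕ, Thin fun n => (n : ℝ) / (Real.log n) ^ L < |(reps u σ b α n : ℝ) - mainT u σ α n| := by
    intro L
    refine thin_mono ?_ (h2 (L + 1))
    have h3 : Tendsto (fun n : ℕ => 2 * (Real.sqrt n * (Real.log n) ^ (L + 1) / n)) atTop (𝓝 0) := by
      have e0 : Tendsto (fun x : ℝ => (Real.log x) ^ (L + 1) / x ^ (1 / 2 : ℝ)) atTop (𝓝 0) := by
        have := (isLittleO_log_rpow_rpow_atTop (s := (1 / 2 : ℝ)) ((L + 1 : ℕ) : ℝ)
          (by norm_num)).tendsto_div_nhds_zero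
        refine this.congr fun x => ?_
        rw [Real.rpow_natCast]
      have e1 := (e0.comp tendsto_natCast_atTop_atTop).const_mul (2 : ℝ)
      rw [mul_zero] at e1
      refine e1.congr' ?_
      filter_upwards [eventually_gt_atTop 0] with n hn
      have hn' : (0:ℝ) < n := by exact_mod_cast hn
      simp only [Function.comp_apply]
      rw [← Real.sqrt_eq_rpow]
      have : (n : ℝ) = √n * √n := (Real.mul_self_sqrt hn'.le).symm
      have hs : 0 < √(n:ℝ) := Real.sqrt_pos.2 hn'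
      field_simp
      rw [Real.sq_sqrt hn'.le]
    filter_upwards [h3.eventually_le_const (show (0:ℝ) < 1 by norm_num), hlog.eventually_ge_atTop 2,
      eventually_gt_atTop 0] with n hn1 hn2 hn3 hn4
    have hn' : (0:ℝ) < n := by exact_mod_cast hn3
    have hl : 0 < Real.log (n:ℝ) := by linarith
    have h5 := reps_diff u σ b α n
    have h6 : (Nat.sqrt n : ℝ) ≤ √(n:ℝ) := Real.nat_sqrt_le_real_sqrt
    have h7 : 2 * √(n:ℝ) ≤ n / (Real.log n) ^ (L + 1) := by
      rw [le_div_iff₀ (by positivity)]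
      have : 2 * (√(n:ℝ) * (Real.log n) ^ (L + 1) / n) * n ≤ 1 * n := mul_le_mul_of_nonneg_right hn1 hn'.le
      have e : 2 * (√(n:ℝ) * (Real.log n) ^ (L + 1) / n) * n = 2 * √(n:ℝ) * (Real.log n) ^ (L + 1) := by
        field_simp
      linarith
    have h8 : 2 * (n / (Real.log n) ^ (L + 1)) ≤ (n:ℝ) / (Real.log n) ^ L := by
      rw [pow_succ, ← div_div, mul_div_assoc', div_le_iff₀ hl]
      have : 0 ≤ (n:ℝ) / (Real.log n) ^ L := by positivity
      nlinarith
    linarith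
  refine ⟨hA, fun ε hε => ?_⟩
  refine thin_mono ?_ (hA (k + 1))
  have h3 := hmt k u hu σ α hpos
  have h4 : ∀ᶠ n : ℕ in atTop, |(mainT u σ α n) * (Real.log n) ^ k / n - 1| < ε / 2 := by
    have := (Metric.tendsto_nhds.1 h3) (ε / 2) (by positivity)
    filter_upwards [this] with n hn
    rwa [Real.dist_eq] at hn
  filter_upwards [h4, hlog.eventually_ge_atTop (2 / ε), hlog.eventually_ge_atTop 1, eventually_gt_atTop 0]
    with n hn1 hn2 hn3 hn4 hn5
  by_contra h6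
  push Not at h6
  have hn' : (0:ℝ) < n := by exact_mod_cast hn4
  have hl : 0 < Real.log (n:ℝ) := by linarith
  have e1 : (reps u σ b α n : ℝ) / (n / (Real.log n) ^ k) - 1 =
      ((reps u σ b α n : ℝ) - mainT u σ α n) * ((Real.log n) ^ k / n) +
        ((mainT u σ α n) * (Real.log n) ^ k / n - 1) := by
    field_simp
    ring
  rw [e1] at hn5
  have h7 : |((reps u σ b α n : ℝ) - mainT u σ α n) * ((Real.log n) ^ k / n)| ≤ ε / 2 := by
    rw [abs_mul, abs_of_nonneg (by positivity : 0 ≤ (Real.log (n:ℝ)) ^ k / n)]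
    calc _ ≤ n / (Real.log n) ^ (k + 1) * ((Real.log n) ^ k / n) := mul_le_mul_of_nonneg_right h6 (by positivity)
      _ = 1 / Real.log n := by
          rw [pow_succ]
          field_simp
      _ ≤ ε / 2 := by
          rw [div_le_iff₀ hl]
          rw [div_le_iff₀ hε] at hn2
          linarith
  have h8 := abs_add_le (((reps u σ b α n : ℝ) - mainT u σ α n) * ((Real.log n) ^ k / n))
    ((mainT u σ α n) * (Real.log n) ^ k / n - 1)
  linarith

end Pool.Agent.N798.HS
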