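import Pool.Agent.N798.H.Mono

set_option autoImplicit false

/-! Project HS: the statements for the results file. -/

namespace Pool.Agent.N798.HS

open Finset MeasureTheory Filter Topology

lemma reps_mono {k : ℕ} (u : Fin k → ℕ → ℕ) (b : Fin k → ℤ) (α : Fin k → ℝ) :
    Monotone fun n => (reps u (fun _ => false) b α n : ℝ) := by
  intro m n hmn
  simp only
  rw [Nat.cast_le]
  unfold reps
  apply Finset.card_le_card
  intro j hj
  rw [mem_filter, mem_Ioo] at hj ⊢
  refine ⟨⟨hj.1.1, by omega⟩, fun i => ?_⟩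
  have := hj.2 i
  simpa [arg] using this

/-- the case in which all sequences are taken at the same summand -/
theorem fin_left (hsd : S_SD) (hprd : S_PRD) (hex : S_EX) (hmt : S_MT) {k : ℕ} (u : Fin k → ℕ → ℕ)
    (hu : ∀ i, Sq (u i)) :
    ∀ᵐ α : Fin k → ℝ, (∀ i, 0 < α i) → ∀ b : Fin k → ℤ,
      Tendsto (fun n : ℕ => (reps u (fun _ => false) b α n : ℝ) / (n / (Real.log n) ^ k)) atTop (𝓝 1) := by
  filter_upwards [fin hsd hprd hex hmt u hu (fun _ => false)] with α hα hpos b
  exact mono_lim _ (reps_mono u b α) (hα hpos b).2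

end Pool.Agent.N798.HS
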