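import Pool.Agent.N798.H.Fin

set_option autoImplicit false

/-! Project HS: counting functions have no exceptional arguments. -/

namespace Pool.Agent.N798.HS

open Finset MeasureTheory Filter Topology

open Classical in
/-- a thin set has good numbers in every interval `(A, B]` with `c N ≤ B - A`, `B ≤ 2 N` -/
lemma thin_gap {E : ℕ → Prop} (hE : Thin E) {c : ℝ} (hc : 0 < c) :
    ∀ᶠ N : ℕ in atTop, ∀ A B : ℕ, B ≤ 2 * N → c * N ≤ (B : ℝ) - A → ∃ n, A < n ∧ n ≤ B ∧ ¬ E n := by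
  have h1 := hE 0
  simp only [pow_zero, mul_one] at h1
  have h2 : Tendsto (fun N : ℕ => 2 * N) atTop atTop := tendsto_id.const_mul_atTop' (by norm_num)
  have h3 := (h1.comp h2).eventually_lt_const (show (0:ℝ) < c / 2 by positivity)
  filter_upwards [h3, eventually_gt_atTop 0] with N hN hN0 A B hB hAB
  by_contra hcon
  push Not at hcon
  have hN' : (0:ℝ) < N := by exact_mod_cast hN0
  have h4 : Ioc A B ⊆ (Icc 1 (2 * N)).filter E := by
    intro n hn
    rw [mem_Ioc] at hn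
    rw [mem_filter, mem_Icc]
    exact ⟨⟨by omega, by omega⟩, hcon n hn.1 hn.2⟩
  have h5 := Finset.card_le_card h4
  rw [Nat.card_Ioc] at h5
  have hle : A ≤ B := by
    have : (A : ℝ) ≤ B := by nlinarith
    exact_mod_cast this
  have h6 : (B : ℝ) - A ≤ #((Icc 1 (2 * N)).filter E) := by
    rw [← Nat.cast_sub hle]
    exact_mod_cast h5
  simp only [Function.comp_apply] at hN
  push_cast at hN
  rw [div_lt_iff₀ (by positivity)] at hN
  nlinarith

lemma mono_lim {k : ℕ} (R : ℕ → ℝ) (hR : Monotone R)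
    (h : ∀ ε : ℝ, 0 < ε → Thin fun n => ε < |R n / (n / (Real.log n) ^ k) - 1|) :
    Tendsto (fun n : ℕ => R n / (n / (Real.log n) ^ k)) atTop (𝓝 1) := by
  have hlog : Tendsto (fun n : ℕ => Real.log (n : ℝ)) atTop atTop :=
    Real.tendsto_log_atTop.comp tendsto_natCast_atTop_atTop
  rw [Metric.tendsto_nhds]
  intro δ hδ
  set ε : ℝ := min (1 / 2) (δ / 8) with hε
  have hε0 : 0 < ε := by positivity
  have hε1 : ε ≤ 1 / 2 := min_le_left _ _
  have hε2 : ε ≤ δ / 8 := min_le_right _ _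
  have hlarge : ∀ᶠ N : ℕ in atTop, 4 / ε ≤ (N : ℝ) := tendsto_natCast_atTop_atTop.eventually_ge_atTop _
  filter_upwards [thin_gap (h ε hε0) (show 0 < ε / 2 by positivity), hlarge, hlog.eventually_ge_atTop 1,
    eventually_ge_atTop 4] with N hN hNε hl1 hN4
  have hN0 : (0:ℝ) < N := by
    have : (4:ℝ) ≤ N := by exact_mod_cast hN4
    linarith
  have hεN : 4 ≤ ε * N := by
    rw [div_le_iff₀ hε0] at hNε
    linarith
  have hl : 0 < Real.log (N:ℝ) := by linarith
  -- upper bound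
  obtain ⟨n1, h1, h2, h3⟩ := hN N (⌊(1 + ε) * N⌋₊) (by
    have : (⌊(1 + ε) * N⌋₊ : ℝ) ≤ (1 + ε) * N := Nat.floor_le (by positivity)
    have h4 : (⌊(1 + ε) * N⌋₊ : ℝ) ≤ ((2 * N : ℕ) : ℝ) := by
      push_cast
      nlinarith
    exact_mod_cast h4) (by
    have := Nat.lt_floor_add_one ((1 + ε) * N)
    nlinarith)
  push Not at h3
  have h2' : (n1 : ℝ) ≤ (1 + ε) * N := (Nat.cast_le.2 h2).trans (Nat.floor_le (by positivity))
  have h1' : (N : ℝ) < n1 := by exact_mod_cast h1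
  have hg1 : (n1 : ℝ) / (Real.log n1) ^ k ≤ (1 + ε) * (N / (Real.log N) ^ k) := by
    have h4 : Real.log N ≤ Real.log n1 := Real.log_le_log hN0 h1'.le
    calc (n1 : ℝ) / (Real.log n1) ^ k ≤ (1 + ε) * N / (Real.log N) ^ k :=
          div_le_div₀ (by positivity) h2' (by positivity) (pow_le_pow_left₀ hl.le h4 k)
      _ = _ := by ring
  have hgN : 0 < (N : ℝ) / (Real.log N) ^ k := by positivity
  have hgn1 : 0 < (n1 : ℝ) / (Real.log n1) ^ k := by
    have h4 : Real.log N ≤ Real.log n1 := Real.log_le_log hN0 h1'.le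
    have : 0 < Real.log (n1:ℝ) := by linarith
    have : (0:ℝ) < n1 := by linarith
    positivity
  have hup : R N / (N / (Real.log N) ^ k) ≤ (1 + ε) * (1 + ε) := by
    have h5 : R n1 / (n1 / (Real.log n1) ^ k) ≤ 1 + ε := by
      have := (abs_le.1 h3).2
      linarith
    rw [div_le_iff₀ hgn1] at h5
    rw [div_le_iff₀ hgN]
    calc R N ≤ R n1 := hR h1.le
      _ ≤ (1 + ε) * (n1 / (Real.log n1) ^ k) := h5
      _ ≤ (1 + ε) * ((1 + ε) * (N / (Real.log N) ^ k)) := mul_le_mul_of_nonneg_left hg1 (by positivity)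
      _ = _ := by ring
  -- lower bound
  obtain ⟨n2, h6, h7, h8⟩ := hN (⌊(1 - ε) * N⌋₊) (N - 1) (by omega) (by
    have : (⌊(1 - ε) * N⌋₊ : ℝ) ≤ (1 - ε) * N := Nat.floor_le (by
      have : 0 ≤ 1 - ε := by linarith
      positivity)
    rw [Nat.cast_sub (by omega)]
    push_cast
    nlinarith)
  push Not at h8
  have h6' : (1 - ε) * N ≤ n2 := by
    have := Nat.lt_floor_add_one ((1 - ε) * N)
    have h9 : ((⌊(1 - ε) * N⌋₊ + 1 : ℕ) : ℝ) ≤ n2 := by exact_mod_cast h6
    push_cast at h9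
    linarith
  have h7' : n2 ≤ N := by omega
  have hn2 : (2:ℝ) ≤ n2 := by nlinarith [(by exact_mod_cast hN4 : (4:ℝ) ≤ N)]
  have hl2 : 0 < Real.log (n2:ℝ) := Real.log_pos (by linarith)
  have hgn2 : 0 < (n2 : ℝ) / (Real.log n2) ^ k := by positivity
  have hg2 : (1 - ε) * (N / (Real.log N) ^ k) ≤ (n2 : ℝ) / (Real.log n2) ^ k := by
    have h4 : Real.log n2 ≤ Real.log N := Real.log_le_log (by linarith) (by exact_mod_cast h7')
    calc (1 - ε) * (N / (Real.log N) ^ k) = (1 - ε) * N / (Real.log N) ^ k := by ring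
      _ ≤ _ := div_le_div₀ (by linarith) h6' (by positivity) (pow_le_pow_left₀ hl2.le h4 k)
  have hlo : (1 - ε) * (1 - ε) ≤ R N / (N / (Real.log N) ^ k) := by
    have h5 : 1 - ε ≤ R n2 / (n2 / (Real.log n2) ^ k) := by
      have := (abs_le.1 h8).1
      linarith
    rw [le_div_iff₀ hgn2] at h5
    rw [le_div_iff₀ hgN]
    calc (1 - ε) * (1 - ε) * (N / (Real.log N) ^ k) = (1 - ε) * ((1 - ε) * (N / (Real.log N) ^ k)) := by ring
      _ ≤ (1 - ε) * (n2 / (Real.log n2) ^ k) := mul_le_mul_of_nonneg_left hg2 (by linarith)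
      _ ≤ R n2 := h5
      _ ≤ R N := hR h7'
  rw [Real.dist_eq, abs_lt]
  constructor
  · nlinarith
  · nlinarith

end Pool.Agent.N798.HS
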