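import Pool.Agent.N798.T.Stm

set_option autoImplicit false

/-!
Project H (helper798): prime values of almost all multiples along ARBITRARY sets of integers.
Definitions and statements of the steps.
-/

namespace Pool.Agent.N798.H

open Finset MeasureTheory Filter Topology
open scoped ENNReal
open Pool.Agent.H376R2.MR (er)
open Pool.Agent.N798.T

/-- (PL2) the Plancherel step with arbitrary weights: no frequency is exceptional -/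
def S_PL2 : Prop := ∀ (s : Finset ℕ) (N : ℕ), (∀ n ∈ s, 1 ≤ n ∧ n ≤ N) → ∀ (g : ℕ → ℂ), (∀ n, ‖g n‖ ≤ 1) →
  ∀ H : ℝ → ℂ, Measurable H → (∀ y, ‖H y‖ ≤ 2) →
  ∀ Y R : ℝ, 0 ≤ R → (∀ y, y ∉ Set.Icc Y (Y + R) → H y = 0) →
  ∀ V : ℝ, 0 ≤ V → (∀ η : ℝ, 0 < |η| → ‖∫ y, H y * er (-η) y‖ ≤ V / |η|) →
  ∀ T κ : ℝ, 1 ≤ T → (N : ℝ) ≤ T → 0 ≤ κ →
  (∀ η : ℝ, |η| ≤ T → ‖∫ y, H y * er (-η) y‖ ≤ κ) →
  ∀ s0 : ℝ, ∫⁻ u, ‖∑ n ∈ s, g n * H (u + (s0 + Real.log n))‖ₑ ^ 2 ≤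
    ENNReal.ofReal (4 * N * (κ ^ 2 * T + V ^ 2 / T))

/-- (FB) the Fourier transform of a weight minus its density is small at all frequencies -/
def S_FB : Prop := ∀ (a : ℕ → ℂ) (e : ℕ), Wt a e → ∀ (b : ℤ) (A K : ℕ) (R : ℝ), 0 ≤ R →
  ∃ C : ℝ, ∀ Y y1 y2 η : ℝ, 1 ≤ Y → Y ≤ y1 → y1 ≤ y2 → y2 ≤ Y + R → |η| ≤ Real.exp (A * Y) →
      ‖∫ y in y1..y2, (a (vl b (Real.exp y)) - ((1 / y ^ e : ℝ) : ℂ)) * er (-η) y‖ ≤ C / Y ^ K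

/-- the indicator of the primes at `⌊α_i n⌋ + b_i` -/
noncomputable def F (b : ℕ → ℤ) (α : ℕ → ℝ) (i n : ℕ) : ℂ := if (vl (b i) (α i * n)).Prime then 1 else 0

/-- (CE) the centred sums with arbitrary bounded weights are small in mean square -/
def S_CEH : Prop := ∀ (w : ℕ → ℂ), (∀ n, ‖w n‖ ≤ 1) → ∀ (b : ℕ → ℤ) (s : ℕ → ℝ) (j K : ℕ),
  ∃ (D : ℝ) (N0 : ℕ), 0 ≤ D ∧ 2 ≤ N0 ∧ ∀ N N' : ℕ, N0 ≤ N → N ≤ N' → N' ≤ 2 * N →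
    ∫⁻ ω, ‖∑ n ∈ Ioc N N', w n * (∏ i ∈ range j, F b (al s (j + 1) ω) i n) *
      (F b (al s (j + 1) ω) j n - ((1 / Real.log (al s (j + 1) ω j * n) : ℝ) : ℂ))‖ₑ ^ 2 ∂(mu (j + 1)) ≤
      ENNReal.ofReal (D * N ^ 2 / (Real.log N) ^ K)

/-- (FN) the final statement: prime values along arbitrary sets -/
def S_FN : Prop := ∀ (k : ℕ) (A : Set ℕ),
  ∀ᵐ α ∂((volume : Measure (Fin k → ℝ)).restrict {α | ∀ i, 0 < α i}), ∀ (b : Fin k → ℤ) (K : ℕ),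
    Tendsto (fun N : ℕ => (Real.log N) ^ K / N *
      ‖∑ n ∈ Icc 1 N, A.indicator (fun n : ℕ => (∏ i, (if (⌊α i * (n : ℝ)⌋ + b i).toNat.Prime then (1 : ℂ) else 0)) -
        ∏ i, ((1 / Real.log (α i * n) : ℝ) : ℂ)) n‖) atTop (𝓝 0)

end Pool.Agent.N798.H
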