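import Pool.Agent.N798.T.Stm

set_option autoImplicit false

/-!
Project HS (helper798): prime values of almost all multiples along ARBITRARY sequences of integers, and
decompositions `n = k + m`.  Definitions and statements of the steps.
-/

namespace Pool.Agent.N798.HS

open Finset MeasureTheory Filter Topology
open scoped ENNReal
open Pool.Agent.H376R2.MR (er)
open Pool.Agent.N798.T

/-- an increasing sequence `u 1 < u 2 < …` of positive integers with `u j ≤ j (log j)^C` -/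
def Sq (u : ℕ → ℕ) : Prop := (∀ m n, 1 ≤ m → m < n → u m < u n) ∧ 1 ≤ u 1 ∧
  ∃ C n0 : ℕ, ∀ n, n0 ≤ n → (u n : ℝ) ≤ n * (Real.log n) ^ C

/-- (PL2) the Plancherel step with arbitrary weights: no frequency is exceptional -/
def S_PL2 : Prop := ∀ (s : Finset ℕ) (M : ℝ), (∀ n ∈ s, 1 ≤ n ∧ (n : ℝ) ≤ M) → ∀ (g : ℕ → ℂ), (∀ n, ‖g n‖ ≤ 1) →
  ∀ H : ℝ → ℂ, Measurable H → (∀ y, ‖H y‖ ≤ 2) →
  ∀ Y R : ℝ, 0 ≤ R → (∀ y, y ∉ Set.Icc Y (Y + R) → H y = 0) →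
  ∀ V : ℝ, 0 ≤ V → (∀ η : ℝ, 0 < |η| → ‖∫ y, H y * er (-η) y‖ ≤ V / |η|) →
  ∀ T κ : ℝ, 1 ≤ T → M ≤ T → 0 ≤ κ →
  (∀ η : ℝ, |η| ≤ T → ‖∫ y, H y * er (-η) y‖ ≤ κ) →
  ∀ s0 : ℝ, ∫⁻ u, ‖∑ n ∈ s, g n * H (u + (s0 + Real.log n))‖ₑ ^ 2 ≤
    ENNReal.ofReal (4 * s.card * (κ ^ 2 * T + V ^ 2 / T))

/-- (FB) the Fourier transform of a weight minus its density is small at all frequencies, windows of any length -/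
def S_FB : Prop := ∀ (a : ℕ → ℂ) (e : ℕ), Wt a e → ∀ (b : ℤ) (A K : ℕ),
  ∃ C : ℝ, ∀ Y y1 y2 η : ℝ, 1 ≤ Y → Y ≤ y1 → y1 ≤ y2 → |η| ≤ Real.exp (A * Y) →
      ‖∫ y in y1..y2, (a (vl b (Real.exp y)) - ((1 / y ^ e : ℝ) : ℂ)) * er (-η) y‖ ≤ C * (y2 - y1 + 1) / Y ^ K

/-- the indicator of the primes at `⌊e^{s+x} m⌋ + b` -/
noncomputable def Fp (b : ℤ) (s x : ℝ) (m : ℕ) : ℂ := if (vl b (Real.exp (s + x) * m)).Prime then 1 else 0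

/-- its density -/
noncomputable def Mp (s x : ℝ) (m : ℕ) : ℂ := ((1 / Real.log (Real.exp (s + x) * m) : ℝ) : ℂ)

/-- (SC) one factor, dyadic ranges, uniformly in the weights -/
def S_SC : Prop := ∀ u : ℕ → ℕ, Sq u → ∀ (b : ℤ) (s : ℝ) (K : ℕ), ∃ (D : ℝ) (N0 : ℕ), 0 ≤ D ∧ 2 ≤ N0 ∧
  ∀ N N' : ℕ, N0 ≤ N → N ≤ N' → N' ≤ 2 * N → ∀ w : ℕ → ℂ, (∀ n, ‖w n‖ ≤ 1) →
    ∫⁻ x in Set.Icc (0 : ℝ) 1, ‖∑ j ∈ Ioc N N', w j * (Fp b s x (u j) - Mp s x (u j))‖ₑ ^ 2 ≤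
      ENNReal.ofReal (D * N ^ 2 / (Real.log N) ^ K)

/-- (SD) one factor, full range -/
def S_SD : Prop := ∀ u : ℕ → ℕ, Sq u → ∀ (b : ℤ) (s : ℝ) (K : ℕ), ∃ (D : ℝ) (N0 : ℕ), 0 ≤ D ∧ 2 ≤ N0 ∧
  ∀ N : ℕ, N0 ≤ N → ∀ w : ℕ → ℂ, (∀ n, ‖w n‖ ≤ 1) →
    ∫⁻ x in Set.Icc (0 : ℝ) 1, ‖∑ j ∈ Ioc (Nat.sqrt N) N, w j * (Fp b s x (u j) - Mp s x (u j))‖ₑ ^ 2 ≤
      ENNReal.ofReal (D * N ^ 2 / (Real.log N) ^ K)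

/-- (PRD) products -/
def S_PRD : Prop := ∀ (k : ℕ) (S : Finset ℕ) (F M : Fin k → ℝ → ℕ → ℂ), (∀ i j, Measurable fun x => F i x j) →
  (∀ i j, Measurable fun x => M i x j) → (∀ i, ∀ x ∈ Set.Icc (0 : ℝ) 1, ∀ j ∈ S, ‖F i x j‖ ≤ 1) →
  (∀ i, ∀ x ∈ Set.Icc (0 : ℝ) 1, ∀ j ∈ S, ‖M i x j‖ ≤ 1) → ∀ B : ℝ≥0∞,
  (∀ i, ∀ w : ℕ → ℂ, (∀ n, ‖w n‖ ≤ 1) →
    ∫⁻ x in Set.Icc (0 : ℝ) 1, ‖∑ j ∈ S, w j * (F i x j - M i x j)‖ₑ ^ 2 ≤ B) →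
  ∫⁻ ω, ‖∑ j ∈ S, (∏ i, F i (ω i) j - ∏ i, M i (ω i) j)‖ₑ ^ 2 ∂(mu k) ≤ (k : ℝ≥0∞) ^ 2 * B

open Classical in
/-- (EX) exceptional sets -/
def S_EX : Prop := ∀ (Ω : Type) [MeasurableSpace Ω] (m : Measure Ω) [IsFiniteMeasure m] (g : Ω → ℕ → ℂ),
  (∀ n, Measurable fun ω => g ω n) →
  (∀ K : ℕ, ∃ (D : ℝ) (N0 : ℕ), 0 ≤ D ∧ 2 ≤ N0 ∧ ∀ n : ℕ, N0 ≤ n →
    ∫⁻ ω, ‖g ω n‖ₑ ^ 2 ∂m ≤ ENNReal.ofReal (D * n ^ 2 / (Real.log n) ^ K)) →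
  ∀ᵐ ω ∂m, ∀ L K : ℕ, Tendsto (fun N : ℕ =>
    (#((Icc 1 N).filter fun n : ℕ => (n : ℝ) / (Real.log n) ^ L < ‖g ω n‖) : ℝ) * (Real.log N) ^ K / N) atTop (𝓝 0)

/-- the `j` with `√n < j` and `√n < n - j` -/
def T (n : ℕ) : Finset ℕ := (range n).filter fun j => Nat.sqrt n < j ∧ Nat.sqrt n < n - j

/-- the argument: `n - j` on the right side, `j` on the left side -/
def arg (σ : Bool) (n j : ℕ) : ℕ := if σ then n - j else j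

/-- (MT) the main term -/
def S_MT : Prop := ∀ (k : ℕ) (u : Fin k → ℕ → ℕ), (∀ i, Sq (u i)) → ∀ (σ : Fin k → Bool) (α : Fin k → ℝ),
  (∀ i, 0 < α i) → Tendsto (fun n : ℕ =>
    (∑ j ∈ T n, ∏ i, 1 / Real.log (α i * u i (arg (σ i) n j))) * (Real.log n) ^ k / n) atTop (𝓝 1)

/-- (NP) the sequence of the primes `p_1 = 2, p_2 = 3, …` -/
def S_NP : Prop := Sq fun j => Nat.nth Nat.Prime (j - 1)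

/-- (CP) compositions -/
def S_CP : Prop := ∀ u v : ℕ → ℕ, Sq u → Sq v → Sq fun j => u (v j)

end Pool.Agent.N798.HS
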